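import Pool.Agent.R905.WM.Weil

/-!
# The weight-monodromy conjecture and smooth affine cubic hypersurfaces

`K` is a field (for the problem: a finite extension of `ℚ_p` with residue field of `q` elements), `E` an
algebraically closed field of characteristic zero (an algebraic closure of `ℚ_ℓ`) and `Γ` the Weil group
of `K` with its degree `v`. For a separated scheme `X` of finite type over `K`, `T.H X n w` is the graded
piece `gr^W_w H^n_c(X)` of the (geometric) weight filtration on the `ℓ`-adic cohomology with compact
supports of `X` over an algebraic closure of `K`. Since `gr^W` is exact and every `gr^W_w H^n_c(X)`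
should again satisfy the conjecture in weight `w`, the property `MixedWM` of `X` satisfies
two-out-of-three for a closed subscheme and its complement (five lemma); so it is enough to know it for
smooth affine cubic hypersurfaces.
-/

set_option autoImplicit false

open AlgebraicGeometry Pool.Agent.R904.CU Pool.Agent.R905.WM

namespace Pool.Agent.Results.MP_cd312e_ag.CubicHypersurfaces

/-- Let `S` be a class of schemes such as the smooth proper `K`-schemes. The following are equivalent:
(1) the weight-monodromy conjecture for the cohomology of all `X` in `S`;
(2) for all separated schemes `X` of finite type over `K`, its analogue for all `gr^W_w H^n_c(X)`;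
(3) the same for the smooth hypersurfaces `X` of degree at most three in affine spaces over `K`. -/
theorem result (K : Type) [Field K] (E : Type) [Field E] [CharZero E] [IsAlgClosed E] (Γ : Type)
    (v : Γ → ℤ) (q : ℕ) (hq : 2 ≤ q) (T : WeilCohomology K E Γ) (hT : T.IsCohomology q v)
    (S : SchProp K) (hS : T.Pure S) (hM : Models S) :
    [∀ X f, SepFinType K X f → S X f → T.WM q v X f,
     ∀ X f, SepFinType K X f → T.MixedWM q v X f,
     ∀ (σ : Type) [Fintype σ] (F : MvPolynomial σ K), IsSmoothCubic F →
       T.MixedWM q v _ (hyp F)].TFAE :=
  T.main hq hT hS hM

end Pool.Agent.Results.MP_cd312e_ag.CubicHypersurfaces
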