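import Pool.Agent.R942.WR.VarDefs
import Pool.Agent.R942.WR.Main
import Pool.Agent.R942.WR.Part

/-!
# MP_cd312e_ag: wrong Frobenius eigenvalues and the non-simple part
-/

set_option autoImplicit false

open Module

universe u v

namespace Pool.Agent.Results.MP_cd312e_ag.DefectBound

open Pool.Agent.Y143 Pool.Agent.R942.WS Pool.Agent.R942.WD Pool.Agent.R942.WR

/-- **The defect of the monodromy-weight conjecture and the non-simple characters.** Let `K` be a
complete discretely valued field of characteristic zero with finite residue field with `q` elements,
and `X` a smooth proper variety over `K`, purely of dimension `n`. Let `A` be an alteration `X' → X`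
with a projective strictly semistable model over the ring of integers of a finite extension `K'` of
`K` with residue degree `f` (alterations of this kind exist by the theorem of de Jong), and let `φ` be
a lift of the geometric Frobenius of the residue field of `K'`.

Let `r ≥ 1`, and suppose that all characters of the Frobenius in the primitive parts of the terms
`E_1^(i, w)` with `2 ≤ w ≤ r` of the weight spectral sequence of `X'` are good, that is simple, or
Tate characters in the weight `w = 2` on a stratum satisfying the Tate conjecture for divisors (for
`r = 1` there is no condition). Let `r + 2 ≤ m ≤ n`. On the graded pieces `gr^N_s` of `H^m(X)` and of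
`H^(2 n - m)(X)` with `|s| = m - r - 2`, the number of eigenvalues of `φ` (with multiplicities) which
are not `q ^ f`-Weil numbers of weight `m + s` (`2 n - m + s`, respectively) is at most
`2 ⌊b / 2⌋`, where `b` is the dimension of the part of the primitive part of `E_1^(i, r + 1)`,
`i = m - r - 1`, given by the characters which are not good, or whose dual is not good, at one of the
places `(i', r + 1)` with `1 ≤ i' ≤ i`. -/
theorem result {Ω : Type u} [Field Ω] [CharZero Ω] [IsAlgClosed Ω] {W : Type} [Group W]
    {deg : W →* Multiplicative ℤ} {n q : ℕ} (X : ProperVariety.{u, v} Ω W deg n q)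
    (A : Alteration X) (r : ℕ) (hr : 1 ≤ r) (hG : GoodUpTo A.classes r) (m : ℕ) (hm : r + 2 ≤ m)
    (hmn : m ≤ n) (s : ℤ) (hs : |s| = (m : ℤ) - r - 2) :
    FrobAtMost A m s (2 * (violDim A.model.toSpecialFibre
      (fun i χ => Good A.classes i (r + 1) χ) (m - r - 1) (r + 1) / 2)) ∧
    FrobAtMost A (2 * n - m) s (2 * (violDim A.model.toSpecialFibre
      (fun i χ => Good A.classes i (r + 1) χ) (m - r - 1) (r + 1) / 2)) :=
  ⟨atMost_of A (bound_cond A.classes hr hG hm hmn (fun _ _ _ _ h => h) s hs).1,
    atMost_of A (bound_cond A.classes hr hG hm hmn (fun _ _ _ _ h => h) s hs).2⟩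

end Pool.Agent.Results.MP_cd312e_ag.DefectBound
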