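import Pool.Agent.R942.WD.Main

/-!
# MP_cd312e_ag: the monodromy-weight conjecture for the outer graded pieces
-/

set_option autoImplicit false

open Module

universe u v

namespace Pool.Agent.Results.MP_cd312e_ag.OuterGradedPieces

open Pool.Agent.Y143 Pool.Agent.R942.WM Pool.Agent.R942.WS Pool.Agent.R942.WD

/-- **The monodromy-weight conjecture for the outer graded pieces, for all smooth proper
varieties.** Let `K` be a complete discretely valued field of characteristic zero with finite residue
field, and `X` a smooth proper variety over `K`, purely of dimension `n`. Let `A` be an alteration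
`X' → X` with a projective strictly semistable model over the ring of integers of a finite extension
of `K` (alterations of this kind exist by the theorem of de Jong).

(1) For all `m ≤ n` and all `s` with `|s| ≥ m - 2`, the conclusion of the conjecture holds for the
graded pieces `gr^N_s` of `H^m` and of `H^(2 n - m)`: every eigenvalue of every `g` in the Weil group
is an algebraic number all of whose conjugates have absolute value `q ^ ((m + s) deg(g) / 2)` (with
`2 n - m` in place of `m`, respectively). For instance, the conjecture holds for all `H^m` with
`m ≤ 2` or `m ≥ 2 n - 2`, and for all `gr^N_s H^3` and `gr^N_s H^(2 n - 3)` with `s ≠ 0`.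

(2) If for all `i ≥ 1` and `2 ≤ w ≤ r` with `i + w ≤ n` all characters of Frobenius in the primitive
part of the term `E_1^(i, w)` of the weight spectral sequence of `X'` are simple, or Tate characters
in the weight `w = 2` on a stratum satisfying the Tate conjecture for divisors, the same is true for
all `s` with `|s| ≥ m - r - 1`. -/
theorem result {Ω : Type u} [Field Ω] [CharZero Ω] [IsAlgClosed Ω] {W : Type} [Group W]
    {deg : W →* Multiplicative ℤ} {n q : ℕ} (X : ProperVariety.{u, v} Ω W deg n q)
    (A : Alteration X) :
    (∀ m ≤ n, ∀ s : ℤ, (m : ℤ) - 2 ≤ |s| → RightWeights X m s ∧ RightWeights X (2 * n - m) s) ∧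
    (∀ r : ℕ, GoodUpTo A.classes r → ∀ m ≤ n, ∀ s : ℤ, (m : ℤ) - r - 1 ≤ |s| →
      RightWeights X m s ∧ RightWeights X (2 * n - m) s) :=
  ⟨fun _ hm s hs => rightWeights A (goodUpTo_one A.classes) hm (by push_cast; linarith),
    fun _ hr _ hm _ hs => rightWeights A hr hm hs⟩

end Pool.Agent.Results.MP_cd312e_ag.OuterGradedPieces
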