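import Pool.Agent.R942.WR.VarDefs
import Pool.Agent.R942.WR.Main

/-!
# MP_cd312e_ag: wrong Frobenius eigenvalues and transcendental classes
-/

set_option autoImplicit false

open Module

universe u v

namespace Pool.Agent.Results.MP_cd312e_ag.TranscendentalBound

open Pool.Agent.Y143 Pool.Agent.R942.WD Pool.Agent.R942.WR

/-- **The defect of the monodromy-weight conjecture and the transcendental classes of degree two.**
Let `K` be a complete discretely valued field of characteristic zero with finite residue field with
`q` elements, and `X` a smooth proper variety over `K`, purely of dimension `n`. Let `A` be an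
alteration `X' → X` with a projective strictly semistable model over the ring of integers of a finite
extension `K'` of `K` with residue degree `f` (alterations of this kind exist by the theorem of de
Jong); let `Y^(m)` be the disjoint union of the intersections of `m` different components of its
special fibre, and let `φ` be a lift of the geometric Frobenius of the residue field of `K'`.

Let `3 ≤ m ≤ n`. On the graded pieces `gr^N_s` of `H^m(X)` and of `H^(2 n - m)(X)` with `|s| = m - 3`,
the number of eigenvalues of `φ` (with multiplicities) which are not `q ^ f`-Weil numbers of weight
`m + s` (`2 n - m + s`, respectively) is at most `2 (b_2 - ρ)`, where `b_2` is the second Betti number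
of `Y^(m-2)` and `ρ` is the dimension of the subspace of `H^2(Y^(m-2))` spanned by the classes of
divisors. -/
theorem result {Ω : Type u} [Field Ω] [CharZero Ω] [IsAlgClosed Ω] {W : Type} [Group W]
    {deg : W →* Multiplicative ℤ} {n q : ℕ} (X : ProperVariety.{u, v} Ω W deg n q)
    (A : Alteration X) (m : ℕ) (hm : 3 ≤ m) (hmn : m ≤ n) (s : ℤ) (hs : |s| = (m : ℤ) - 3) :
    FrobAtMost A m s (2 * transRank A.classes (m - 3)) ∧
      FrobAtMost A (2 * n - m) s (2 * transRank A.classes (m - 3)) :=
  ⟨atMost_of A (bound_all A.classes hm hmn s hs).1,
    atMost_of A (bound_all A.classes hm hmn s hs).2⟩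

end Pool.Agent.Results.MP_cd312e_ag.TranscendentalBound
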